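import Pool.Agent.UL3.Stmts

/-!
# Squad UL3, row HGT (MP_c7c9bf_co): the height of a symmetric convex body
-/

set_option autoImplicit false

open MeasureTheory Set

namespace Pool.Agent.UL3.H51

/-- Row HGT, the proof. -/
theorem hgtAux : HgtStmt := by
  intro K hK
  have hc : Continuous (fun x : E3 => x 2) := by fun_prop
  have h0 : (0 : E3) ∈ K := interior_subset hK.zero_mem
  have hcomp : IsCompact ((fun x : E3 => x 2) '' K) := hK.cpt.image hc
  have hne : ((fun x : E3 => x 2) '' K).Nonempty := ⟨_, 0, h0, rfl⟩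
  have hle : ∀ x ∈ K, x 2 ≤ hgt K := fun x hx => le_csSup hcomp.bddAbove ⟨x, hx, rfl⟩
  obtain ⟨x, hx, hxe⟩ := hcomp.sSup_mem hne
  refine ⟨?_, ?_, x, hx, hxe⟩
  · -- a small multiple of the third basis vector
    have hcont : Continuous (fun t : ℝ => up (0, 0) t) := by
      unfold up
      fun_prop
    have hU : (fun t : ℝ => up (0, 0) t) ⁻¹' interior K ∈ nhds (0 : ℝ) := by
      refine (isOpen_interior.preimage hcont).mem_nhds ?_
      have h1 : up (0, 0) 0 = 0 := by
        ext i
        fin_cases i <;> rfl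
      show up (0, 0) 0 ∈ interior K
      rw [h1]
      exact hK.zero_mem
    obtain ⟨e, he, hball⟩ := Metric.mem_nhds_iff.1 hU
    have h2 : (e / 2 : ℝ) ∈ Metric.ball (0 : ℝ) e := by
      rw [Metric.mem_ball, Real.dist_eq, sub_zero, abs_of_pos (by positivity)]
      linarith
    have h3 : up (0, 0) (e / 2) ∈ K := interior_subset (hball h2)
    have h4 := hle _ h3
    rw [up_two] at h4
    linarith
  · intro y hy
    rw [abs_le]
    have h1 := hle y hy
    have h2 := hle (-y) (hK.sym y hy)
    have h3 : (-y) 2 = -(y 2) := rfl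
    rw [h3] at h2
    exact ⟨by linarith, h1⟩

/-- Row HGT. -/
theorem hgt : HgtStmt := hgtAux

end Pool.Agent.UL3.H51
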